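import Mathlib
import Pool.Agent.H8.HypP
import Pool.Agent.H15.LP3

set_option autoImplicit false

namespace Pool.Agent.Results.MP_21a1fd_an.SqrtMS

open Polynomial

theorem result :
    ∀ p q : ℝ[X], (∀ z : ℂ, aeval z p = 0 → z.im = 0) →
      (∀ k : ℕ, q.coeff k = Real.sqrt (k : ℝ) / (k.factorial : ℝ) * p.coeff k) →
      q = 0 ∨ ∀ z : ℂ, aeval z q = 0 → z.im = 0 := by
  intro p q hp hq
  refine Pool.Agent.H8.HypP.ms_of_approx (fun k => Real.sqrt (k : ℝ) / (k.factorial : ℝ))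
    Pool.Agent.H15.LP.P Pool.Agent.H15.LP.P_roots ?_ p q hp hq
  intro k
  have h := Pool.Agent.H15.LP.a_lim k
  rw [div_div, ← pow_two]
  refine h.congr fun n => ?_
  unfold Pool.Agent.H15.LP.P
  rw [finsetSum_coeff]
  simp only [coeff_monomial]
  rw [Finset.sum_ite_eq']
  split_ifs with hk
  · rfl
  · exact Pool.Agent.H15.LP.a_zero (by simp at hk; omega)

end Pool.Agent.Results.MP_21a1fd_an.SqrtMS
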